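import Mathlib

set_option autoImplicit false

/-! # Definitions: tone colourings, plane trees (as trees with a rotation system), Halin graphs -/

namespace Pool.Agent.Lib.MP_fbe6c8_co

variable {V : Type*}

/-- `f` is a `t`-tone `k`-colouring of `G`: every vertex gets a set of `t` colours out of `k`, and
distinct vertices at distance `d` share fewer than `d` colours. -/
def IsToneColoring (G : SimpleGraph V) (t k : ℕ) (f : V → Finset (Fin k)) : Prop :=
  (∀ v, (f v).card = t) ∧ ∀ u v, u ≠ v → (f u ∩ f v).card < G.dist u v

/-- `G` is `t`-tone `k`-colourable. -/
def ToneColorable (G : SimpleGraph V) (t k : ℕ) : Prop :=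
  ∃ f : V → Finset (Fin k), IsToneColoring G t k f

/-- A rotation system of the graph `T`: a cyclic order of the neighbours of every vertex `v`.
`next v w` is the neighbour of `v` that comes after the neighbour `w`; `cyclic` says that going on
from any neighbour one reaches every other one. A tree together with a rotation system is a plane
tree (up to orientation preserving homeomorphism of the plane). -/
structure Rotation (T : SimpleGraph V) where
  next : V → V → V
  next_adj : ∀ v w, T.Adj v w → T.Adj v (next v w)
  cyclic : ∀ v w w', T.Adj v w → T.Adj v w' → ∃ k : ℕ, (next v)^[k] w = w'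

/-- A leaf: a vertex with exactly one neighbour. -/
def IsLeaf (T : SimpleGraph V) (v : V) : Prop := ∃! w, T.Adj v w

/-- One step of the walk around the plane tree `T` (along the boundary of its only face): after
walking along the edge from `d.1` to `d.2` one leaves `d.2` along the edge that comes next, in the
cyclic order at `d.2`, after the edge by which one arrived. -/
def Rotation.step {T : SimpleGraph V} (ρ : Rotation T) (d : V × V) : V × V :=
  (d.2, ρ.next d.2 d.1)

/-- `ρ.Follows a b`: the leaf `b` is the first leaf met after leaving the leaf `a` when walking
around the plane tree, i.e. `b` comes right after `a` in the cyclic order of the leaves given by the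
embedding. -/
def Rotation.Follows {T : SimpleGraph V} (ρ : Rotation T) (a b : V) : Prop :=
  IsLeaf T a ∧ IsLeaf T b ∧ ∃ p, T.Adj a p ∧ ∃ k : ℕ, (ρ.step^[k] (a, p)).2 = b ∧
    ∀ j < k, ¬ IsLeaf T (ρ.step^[j] (a, p)).2

/-- `G` is a Halin graph: it consists of a plane tree `T` on at least four vertices without vertices
of degree two, together with a cycle through all leaves of `T` that visits them in the cyclic order
given by the embedding of `T`. -/
def IsHalin (G : SimpleGraph V) : Prop :=
  4 ≤ Nat.card V ∧ ∃ (T : SimpleGraph V) (ρ : Rotation T), T.IsTree ∧
    (∀ v, (T.neighborSet v).ncard ≠ 2) ∧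
    ∀ a b, G.Adj a b ↔ T.Adj a b ∨ ρ.Follows a b ∨ ρ.Follows b a

/-- `G` is cubic: every vertex has exactly three neighbours. -/
def IsCubic (G : SimpleGraph V) : Prop := ∀ v, (G.neighborSet v).ncard = 3

end Pool.Agent.Lib.MP_fbe6c8_co
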