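import Pool.Agent.Lib.MP_fbe6c8_co.Sound
import Pool.Agent.Lib.MP_fbe6c8_co.Defs

set_option autoImplicit false

namespace Pool.Agent.Lib.MP_fbe6c8_co

variable {V : Type*} {T : SimpleGraph V}

lemma Rotation.closed (ρ : Rotation T) {v w : V} {S : Set V} (hS : ∀ x ∈ S, ρ.next v x ∈ S)
    (hw : w ∈ S) (hvw : T.Adj v w) {w' : V} (hw' : T.Adj v w') : w' ∈ S := by
  obtain ⟨k, rfl⟩ := ρ.cyclic v w w' hvw hw'
  clear hw'
  induction k with
  | zero => exact hw
  | succ k ih => rw [Function.iterate_succ_apply']; exact hS _ ih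

lemma Rotation.three (ρ : Rotation T) {v u : V} (h3 : (T.neighborSet v).ncard = 3)
    (hu : T.Adj v u) :
    ρ.next v u ≠ u ∧ ρ.next v (ρ.next v u) ≠ u ∧ ρ.next v (ρ.next v u) ≠ ρ.next v u ∧
      ρ.next v (ρ.next v (ρ.next v u)) = u ∧
      ∀ w, T.Adj v w → w = u ∨ w = ρ.next v u ∨ w = ρ.next v (ρ.next v u) := by
  have hfin : (T.neighborSet v).Finite := Set.finite_of_ncard_pos (by omega)
  have ha := ρ.next_adj v u hu
  have hb := ρ.next_adj v _ ha
  have hc := ρ.next_adj v _ hb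
  have h1 : ρ.next v u ≠ u := by
    intro h
    have hall : T.neighborSet v ⊆ {u} := fun w hw =>
      ρ.closed (S := {u}) (by rintro x rfl; exact h) rfl hu hw
    have := Set.ncard_le_ncard hall (Set.finite_singleton u)
    rw [Set.ncard_singleton] at this
    omega
  have h2 : ρ.next v (ρ.next v u) ≠ u := by
    intro h
    have hall : T.neighborSet v ⊆ {u, ρ.next v u} := fun w hw =>
      ρ.closed (S := {u, ρ.next v u}) (by
        rintro x (rfl | rfl)
        · exact Or.inr rfl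
        · exact Or.inl h) (Or.inl rfl) hu hw
    have h4 := Set.ncard_le_ncard hall (Set.toFinite _)
    have h5 := Set.ncard_insert_le u {ρ.next v u}
    rw [Set.ncard_singleton] at h5
    omega
  have h4 : ρ.next v (ρ.next v u) ≠ ρ.next v u := by
    intro h
    have : u ∈ ({ρ.next v u} : Set V) :=
      ρ.closed (S := {ρ.next v u}) (by rintro x rfl; exact h) rfl ha hu
    exact h1 this.symm
  have hsub : ({u, ρ.next v u, ρ.next v (ρ.next v u)} : Set V) ⊆ T.neighborSet v := by
    rintro x (rfl | rfl | rfl)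
    · exact hu
    · exact ha
    · exact hb
  have hcard : ({u, ρ.next v u, ρ.next v (ρ.next v u)} : Set V).ncard = 3 := by
    rw [Set.ncard_eq_three]
    exact ⟨_, _, _, h1.symm, h2.symm, h4.symm, rfl⟩
  have heq := Set.eq_of_subset_of_ncard_le hsub (by omega) hfin
  have hall : ∀ w, T.Adj v w → w = u ∨ w = ρ.next v u ∨ w = ρ.next v (ρ.next v u) := by
    intro w hw
    have : w ∈ T.neighborSet v := hw
    rw [← heq] at this
    exact this
  refine ⟨h1, h2, h4, ?_, hall⟩
  rcases hall _ hc with h | h | h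
  · exact h
  · exfalso
    have : u ∈ ({ρ.next v u, ρ.next v (ρ.next v u)} : Set V) :=
      ρ.closed (by
        rintro x (rfl | rfl)
        · exact Or.inr rfl
        · exact Or.inl h) (Or.inl rfl) ha hu
    rcases this with h' | h'
    · exact h1 h'.symm
    · exact h2 h'.symm
  · exfalso
    have : u ∈ ({ρ.next v (ρ.next v u)} : Set V) :=
      ρ.closed (S := {ρ.next v (ρ.next v u)}) (by rintro x rfl; exact h) rfl hb hu
    exact h2 this.symm

/-- the vertices closer to `v` than to `u` -/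
def side (T : SimpleGraph V) (u v : V) : Set V := {w | T.dist w v < T.dist w u}

lemma closer_exists (hT : T.IsTree) {v w : V} (h : w ≠ v) :
    ∃ c, T.Adj v c ∧ T.dist w c < T.dist w v := by
  obtain ⟨p, hp⟩ := hT.connected.exists_walk_length_eq_dist v w
  cases p with
  | nil => exact absurd rfl h
  | cons hadj q =>
    refine ⟨_, hadj, ?_⟩
    have := SimpleGraph.dist_le q
    rw [SimpleGraph.Walk.length_cons] at hp
    rw [SimpleGraph.dist_comm, SimpleGraph.dist_comm (u := w)]
    omega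

lemma closer_unique (hT : T.IsTree) {v w c c' : V} (h : T.Adj v c) (h' : T.Adj v c')
    (hc : T.dist w c < T.dist w v) (hc' : T.dist w c' < T.dist w v) : c = c' := by
  classical
  obtain ⟨p, hp, hpl⟩ := hT.connected.exists_path_of_dist w v
  have key : ∀ c, T.Adj v c → T.dist w c < T.dist w v → c = p.penultimate := by
    intro c h hc
    obtain ⟨q, hq, hql⟩ := hT.connected.exists_path_of_dist w c
    have hv : v ∉ q.support := by
      intro hv
      have h1 := SimpleGraph.dist_le (q.takeUntil v hv)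
      have h2 := q.length_takeUntil_le_length hv
      omega
    have := hT.isAcyclic.mem_support_of_ne_mem_support_of_adj_of_isPath hp hq h hv
    exact hT.isAcyclic.eq_penultimate_of_adj_end hp h this
  rw [key c h hc, key c' h' hc']

lemma mem_side_self {u v : V} (h : T.Adj u v) : v ∈ side T u v := by
  have : T.dist v u = 1 := SimpleGraph.dist_eq_one_iff_adj.2 h.symm
  show T.dist v v < T.dist v u
  rw [SimpleGraph.dist_self, this]; exact Nat.one_pos

lemma side_leaf (hT : T.IsTree) {u v : V} (h : T.Adj u v) (hv : IsLeaf T v) {w : V}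
    (hw : w ∈ side T u v) : w = v := by
  by_contra hne
  obtain ⟨c, hc, hcd⟩ := closer_exists hT hne
  have : c = u := hv.unique hc h.symm
  subst this
  have hw' : T.dist w v < T.dist w c := hw
  omega

lemma side_child (hT : T.IsTree) {u v a : V} (h : T.Adj u v) (ha : T.Adj v a) (hau : a ≠ u)
    {w : V} (hw : w ∈ side T v a) : w ∈ side T u v := by
  have hw' : T.dist w a < T.dist w v := hw
  show T.dist w v < T.dist w u
  by_contra hlt
  have h1 := hT.dist_ne_of_adj w h
  exact hau (closer_unique hT ha h.symm hw' (by omega))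

lemma self_notMem_side {v a : V} : v ∉ side T v a := by
  intro h
  have h' : T.dist v a < T.dist v v := h
  rw [SimpleGraph.dist_self] at h'
  exact Nat.not_lt_zero _ h'

lemma side_disjoint (hT : T.IsTree) {v a b : V} (ha : T.Adj v a) (hb : T.Adj v b) (hab : a ≠ b)
    {w : V} (hw : w ∈ side T v a) : w ∉ side T v b := fun hw' =>
  hab (closer_unique hT ha hb hw hw')

lemma side_cases (hT : T.IsTree) {u v a b : V} (hall : ∀ w, T.Adj v w → w = u ∨ w = a ∨ w = b)
    {w : V} (hw : w ∈ side T u v) : w = v ∨ w ∈ side T v a ∨ w ∈ side T v b := by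
  by_cases hne : w = v
  · exact Or.inl hne
  right
  obtain ⟨c, hc, hcd⟩ := closer_exists hT hne
  rcases hall c hc with rfl | rfl | rfl
  · have hw' : T.dist w v < T.dist w c := hw
    omega
  · exact Or.inl hcd
  · exact Or.inr hcd

/-- `Br ρ t u v l r`: the branch at `v` seen from its neighbour `u` has shape `t`, first leaf `l`
and last leaf `r`. -/
inductive Br (ρ : Rotation T) : BT → V → V → V → V → Prop
  | leaf {u v : V} (h : T.Adj u v) (hv : IsLeaf T v) : Br ρ .leaf u v v v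
  | node {s t : BT} {u v l1 r1 l2 r2 : V} (h : T.Adj u v) (hv : (T.neighborSet v).ncard = 3)
      (h1 : Br ρ s v (ρ.next v u) l1 r1) (h2 : Br ρ t v (ρ.next v (ρ.next v u)) l2 r2) :
      Br ρ (.node s t) u v l1 r2

lemma exists_Br_aux [Finite V] (hT : T.IsTree) (ρ : Rotation T)
    (hdeg : ∀ v, IsLeaf T v ∨ (T.neighborSet v).ncard = 3) (r0 : V) {N : ℕ}
    (hN : ∀ w, T.dist r0 w ≤ N) : ∀ n u v, T.Adj u v → T.dist r0 v = T.dist r0 u + 1 →
      N - T.dist r0 v = n → ∃ t l r, Br ρ t u v l r := by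
  intro n
  induction n using Nat.strong_induction_on with
  | _ n ih =>
    intro u v huv hd hn
    rcases hdeg v with hv | hv
    · exact ⟨_, _, _, Br.leaf huv hv⟩
    obtain ⟨h1, h2, h3, -, -⟩ := ρ.three hv huv.symm
    have ha := ρ.next_adj v u huv.symm
    have hb := ρ.next_adj v _ ha
    have hchild : ∀ a, T.Adj v a → a ≠ u → T.dist r0 a = T.dist r0 v + 1 := by
      intro a ha hau
      rcases hT.dist_eq_dist_add_one_of_adj r0 ha with h | h
      · exfalso
        exact hau (closer_unique (w := r0) hT ha huv.symm (by omega) (by omega))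
      · exact h
    have hda := hchild _ ha h1
    have hdb := hchild _ hb h2
    have hNa := hN (ρ.next v u)
    have hNb := hN (ρ.next v (ρ.next v u))
    obtain ⟨s, l1, r1, hs⟩ := ih (N - T.dist r0 (ρ.next v u)) (by omega) v _ ha hda rfl
    obtain ⟨t, l2, r2, ht⟩ := ih (N - T.dist r0 (ρ.next v (ρ.next v u))) (by omega) v _ hb hdb rfl
    exact ⟨_, _, _, Br.node huv hv hs ht⟩

lemma exists_Br [Finite V] (hT : T.IsTree) (ρ : Rotation T)
    (hdeg : ∀ v, IsLeaf T v ∨ (T.neighborSet v).ncard = 3) {u v : V} (h : T.Adj u v) :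
    ∃ t l r, Br ρ t u v l r := by
  obtain ⟨N, hN⟩ := (Set.finite_range (fun w => T.dist u w)).bddAbove
  refine exists_Br_aux hT ρ hdeg u (N := N) (fun w => hN ⟨w, rfl⟩) _ u v h ?_ rfl
  rw [SimpleGraph.dist_self, zero_add]
  exact SimpleGraph.dist_eq_one_iff_adj.2 h

lemma not_leaf_of_three {v : V} (h : (T.neighborSet v).ncard = 3) : ¬ IsLeaf T v := by
  rintro ⟨w, hw, huniq⟩
  have hall : T.neighborSet v ⊆ {w} := fun x hx => huniq x hx
  have := Set.ncard_le_ncard hall (Set.finite_singleton w)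
  rw [Set.ncard_singleton] at this
  omega

lemma Br.adj {ρ : Rotation T} {t : BT} {u v l r : V} (h : Br ρ t u v l r) : T.Adj u v := by
  cases h <;> assumption

lemma Br.mem_left {ρ : Rotation T} (hT : T.IsTree) {t : BT} {u v l r : V} (h : Br ρ t u v l r) :
    l ∈ side T u v := by
  induction h with
  | leaf h hv => exact mem_side_self h
  | node h hv h1 h2 ih1 ih2 =>
    exact side_child hT h h1.adj (ρ.three hv h.symm).1 ih1

lemma Br.mem_right {ρ : Rotation T} (hT : T.IsTree) {t : BT} {u v l r : V} (h : Br ρ t u v l r) :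
    r ∈ side T u v := by
  induction h with
  | leaf h hv => exact mem_side_self h
  | node h hv h1 h2 ih1 ih2 =>
    exact side_child hT h h2.adj (ρ.three hv h.symm).2.1 ih2

lemma Br.leaf_left {ρ : Rotation T} {t : BT} {u v l r : V} (h : Br ρ t u v l r) :
    IsLeaf T l := by
  induction h <;> assumption

lemma Br.leaf_right {ρ : Rotation T} {t : BT} {u v l r : V} (h : Br ρ t u v l r) :
    IsLeaf T r := by
  induction h <;> assumption

lemma Br.walk_left {ρ : Rotation T} {t : BT} {u v l r : V} (h : Br ρ t u v l r) :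
    ∃ k : ℕ, (ρ.step^[k] (u, v)).2 = l ∧ ∀ j < k, ¬ IsLeaf T (ρ.step^[j] (u, v)).2 := by
  induction h with
  | leaf h hv => exact ⟨0, rfl, fun j hj => absurd hj (Nat.not_lt_zero _)⟩
  | @node s t u v l1 r1 l2 r2 h hv h1 h2 ih1 ih2 =>
    obtain ⟨k, hk, hk'⟩ := ih1
    have hstep : ρ.step (u, v) = (v, ρ.next v u) := rfl
    refine ⟨k + 1, ?_, ?_⟩
    · rw [Function.iterate_succ_apply, hstep, hk]
    · intro j hj
      cases j with
      | zero => exact not_leaf_of_three hv
      | succ j =>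
        rw [Function.iterate_succ_apply, hstep]
        exact hk' j (by omega)

lemma Br.walk_right {ρ : Rotation T} {t : BT} {u v l r : V} (h : Br ρ t u v l r) :
    ∀ q, T.Adj r q → ∃ m : ℕ, ρ.step^[m] (r, q) = (v, u) ∧
      ∀ j < m, ¬ IsLeaf T (ρ.step^[j] (r, q)).2 := by
  induction h with
  | @leaf u v h hv =>
    intro q hq
    have : q = u := hv.unique hq h.symm
    subst this
    exact ⟨0, rfl, fun j hj => absurd hj (Nat.not_lt_zero _)⟩
  | @node s t u v l1 r1 l2 r2 h hv h1 h2 ih1 ih2 =>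
    intro q hq
    obtain ⟨m, hm, hm'⟩ := ih2 q hq
    refine ⟨m + 1, ?_, ?_⟩
    · rw [Function.iterate_succ_apply', hm]
      have : ρ.step (ρ.next v (ρ.next v u), v) = (v, ρ.next v (ρ.next v (ρ.next v u))) := rfl
      rw [this, (ρ.three hv h.symm).2.2.2.1]
    · intro j hj
      rcases Nat.lt_succ_iff_lt_or_eq.1 hj with hj | rfl
      · exact hm' j hj
      · rw [hm]; exact not_leaf_of_three hv

/-- joining walks -/
lemma follows_of_walks {ρ : Rotation T} {a b q x y : V} (ha : IsLeaf T a) (hb : IsLeaf T b)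
    (hq : T.Adj a q) {m k : ℕ} (hm : ρ.step^[m] (a, q) = (x, y))
    (hm' : ∀ j < m, ¬ IsLeaf T (ρ.step^[j] (a, q)).2)
    (hk : (ρ.step^[k] (x, y)).2 = b)
    (hk' : ∀ j < k, ¬ IsLeaf T (ρ.step^[j] (x, y)).2) : ρ.Follows a b := by
  refine ⟨ha, hb, q, hq, k + m, ?_, ?_⟩
  · rw [Function.iterate_add_apply, hm, hk]
  · intro j hj
    by_cases hjm : j < m
    · exact hm' j hjm
    · obtain ⟨i, rfl⟩ : ∃ i, j = i + m := ⟨j - m, by omega⟩
      rw [Function.iterate_add_apply, hm]
      exact hk' i (by omega)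

lemma follows_inner {ρ : Rotation T} {s t : BT} {u v l1 r1 l2 r2 : V}
    (hv : (T.neighborSet v).ncard = 3)
    (h1 : Br ρ s v (ρ.next v u) l1 r1) (h2 : Br ρ t v (ρ.next v (ρ.next v u)) l2 r2) :
    ρ.Follows r1 l2 := by
  obtain ⟨q, hq, -⟩ := h1.leaf_right
  obtain ⟨m, hm, hm'⟩ := h1.walk_right q hq
  obtain ⟨k, hk, hk'⟩ := h2.walk_left
  have hm1 : ρ.step^[m + 1] (r1, q) = (v, ρ.next v (ρ.next v u)) := by
    rw [Function.iterate_succ_apply', hm]; rfl
  refine follows_of_walks h1.leaf_right h2.leaf_left hq hm1 ?_ hk hk'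
  intro j hj
  rcases Nat.lt_succ_iff_lt_or_eq.1 hj with hj | rfl
  · exact hm' j hj
  · rw [hm]; exact not_leaf_of_three hv

lemma follows_outer {ρ : Rotation T} {s t : BT} {u v l1 r1 l2 r2 : V}
    (h1 : Br ρ s u v l1 r1) (h2 : Br ρ t v u l2 r2) : ρ.Follows r1 l2 := by
  obtain ⟨q, hq, -⟩ := h1.leaf_right
  obtain ⟨m, hm, hm'⟩ := h1.walk_right q hq
  obtain ⟨k, hk, hk'⟩ := h2.walk_left
  exact follows_of_walks h1.leaf_right h2.leaf_left hq hm hm' hk hk'

/-- three neighbours with pairwise distinct colours, all disjoint from the colour of `w` -/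
def Good (G : SimpleGraph V) (f : V → Pt) (w : V) : Prop :=
  ∃ n1 n2 n3, G.Adj w n1 ∧ G.Adj w n2 ∧ G.Adj w n3 ∧ adj (f w) (f n1) = true ∧
    adj (f w) (f n2) = true ∧ adj (f w) (f n3) = true ∧ f n1 ≠ f n2 ∧ f n1 ≠ f n3 ∧ f n2 ≠ f n3

theorem extend (hT : T.IsTree) {ρ : Rotation T} {G : SimpleGraph V}
    (hG : ∀ a b, G.Adj a b ↔ T.Adj a b ∨ ρ.Follows a b ∨ ρ.Follows b a)
    {t : BT} {u v l r : V} (h : Br ρ t u v l r) :
    ∀ a1 a2 b1 b2 g1 g2 : Pt, Sem t a1 a2 b1 b2 g1 g2 → ∃ f : V → Pt,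
      f v = a1 ∧ f l = b1 ∧ f r = g1 ∧ ∀ g : V → Pt, (∀ w ∈ side T u v, g w = f w) →
        ∀ x y, G.Adj l x → G.Adj r y → g u = a2 → g x = b2 → g y = g2 →
          ∀ w ∈ side T u v, Good G g w := by
  classical
  induction h with
  | @leaf u v h hv =>
    rintro a1 a2 b1 b2 g1 g2 ⟨h1, h2, h3, h4, h5, h6, h7, h8⟩
    refine ⟨fun _ => a1, rfl, h1.symm, h2.symm, ?_⟩
    intro g hg x y hx hy hu hx' hy' w hw
    have hwv := side_leaf hT h hv hw
    subst hwv
    have hgw : g w = a1 := hg w hw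
    refine ⟨u, x, y, (hG _ _).2 (Or.inl h.symm), hx, hy, ?_, ?_, ?_, ?_, ?_, ?_⟩
    · rw [hgw, hu]; exact h3
    · rw [hgw, hx']; exact h4
    · rw [hgw, hy']; exact h5
    · rw [hu, hx']; exact h6
    · rw [hu, hy']; exact h7
    · rw [hx', hy']; exact h8
  | @node s t u v l1 r1 l2 r2 h hv h1 h2 ih1 ih2 =>
    rintro a1 a2 b1 b2 g1 g2 ⟨c1, c2, d1, d2, k1, k2, k3, k4, k5, k6, hs, ht⟩
    obtain ⟨f1, e1, e2, e3, F1⟩ := ih1 _ _ _ _ _ _ hs
    obtain ⟨f2, e4, e5, e6, F2⟩ := ih2 _ _ _ _ _ _ ht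
    obtain ⟨t1, t2, t3, t4, hall⟩ := ρ.three hv h.symm
    set a := ρ.next v u with ha
    set b := ρ.next v a with hb
    have hva : T.Adj v a := h1.adj
    have hvb : T.Adj v b := h2.adj
    let f : V → Pt := fun w => if w = v then a1 else if w ∈ side T v a then f1 w else f2 w
    have fv : f v = a1 := if_pos rfl
    have f1' : ∀ w ∈ side T v a, f w = f1 w := by
      intro w hw
      have hne : w ≠ v := fun h' => self_notMem_side (h' ▸ hw)
      simp only [f, if_neg hne, if_pos hw]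
    have f2' : ∀ w ∈ side T v b, f w = f2 w := by
      intro w hw
      have hne : w ≠ v := fun h' => self_notMem_side (h' ▸ hw)
      have hna : w ∉ side T v a := side_disjoint hT hvb hva t3 hw
      simp only [f, if_neg hne, if_neg hna]
    have ml1 := h1.mem_left hT
    have mr1 := h1.mem_right hT
    have ml2 := h2.mem_left hT
    have mr2 := h2.mem_right hT
    have ma : a ∈ side T v a := mem_side_self hva
    have mb : b ∈ side T v b := mem_side_self hvb
    have hfol : ρ.Follows r1 l2 := follows_inner hv h1 h2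
    refine ⟨f, fv, by rw [f1' _ ml1, e2], by rw [f2' _ mr2, e6], ?_⟩
    intro g hg x y hx hy hu hx' hy' w hw
    have hgv : g v = a1 := by rw [hg v (mem_side_self h), fv]
    have hg1 : ∀ w ∈ side T v a, g w = f1 w := fun w hw => by
      rw [hg w (side_child hT h hva t1 hw), f1' w hw]
    have hg2 : ∀ w ∈ side T v b, g w = f2 w := fun w hw => by
      rw [hg w (side_child hT h hvb t2 hw), f2' w hw]
    rcases side_cases hT hall hw with rfl | hw' | hw'
    · refine ⟨u, a, b, (hG _ _).2 (Or.inl h.symm), (hG _ _).2 (Or.inl hva),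
        (hG _ _).2 (Or.inl hvb), ?_, ?_, ?_, ?_, ?_, ?_⟩
      · rw [hgv, hu]; exact k1
      · rw [hgv, hg1 a ma, e1]; exact k2
      · rw [hgv, hg2 b mb, e4]; exact k3
      · rw [hu, hg1 a ma, e1]; exact k4
      · rw [hu, hg2 b mb, e4]; exact k5
      · rw [hg1 a ma, hg2 b mb, e1, e4]; exact k6
    · exact F1 g hg1 x l2 hx ((hG _ _).2 (Or.inr (Or.inl hfol))) hgv hx'
        (by rw [hg2 l2 ml2, e5]) w hw'
    · exact F2 g hg2 r1 y ((hG _ _).2 (Or.inr (Or.inr hfol))) hy hgv
        (by rw [hg1 r1 mr1, e3]) hy' w hw'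

/-- A proper edge `u v` of the tree with both ends of degree three gives a colouring. -/
theorem exists_good [Finite V] (hT : T.IsTree) {ρ : Rotation T} {G : SimpleGraph V}
    (hG : ∀ a b, G.Adj a b ↔ T.Adj a b ∨ ρ.Follows a b ∨ ρ.Follows b a)
    (hdeg : ∀ v, IsLeaf T v ∨ (T.neighborSet v).ncard = 3) {u v : V} (huv : T.Adj u v)
    (hu : (T.neighborSet u).ncard = 3) (hv : (T.neighborSet v).ncard = 3) :
    ∃ f : V → Pt, ∀ w, Good G f w := by
  classical
  obtain ⟨s, l1, r1, hA⟩ := exists_Br hT ρ hdeg huv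
  obtain ⟨t, l2, r2, hB⟩ := exists_Br hT ρ hdeg huv.symm
  have hs : ∃ s1 s2, s = .node s1 s2 := by
    cases hA with
    | leaf h hv' => exact absurd hv' (not_leaf_of_three hv)
    | node => exact ⟨_, _, rfl⟩
  have ht : ∃ s1 s2, t = .node s1 s2 := by
    cases hB with
    | leaf h hv' => exact absurd hv' (not_leaf_of_three hu)
    | node => exact ⟨_, _, rfl⟩
  obtain ⟨s1, s2, rfl⟩ := hs
  obtain ⟨t1, t2, rfl⟩ := ht
  obtain ⟨a1, a2, b1, b2, g1, g2, S1, S2⟩ := closing s1 s2 t1 t2
  obtain ⟨f1, e1, e2, e3, F1⟩ := extend hT hG hA _ _ _ _ _ _ S1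
  obtain ⟨f2, e4, e5, e6, F2⟩ := extend hT hG hB _ _ _ _ _ _ S2
  have hside : ∀ w, w ∉ side T u v → w ∈ side T v u := by
    intro w hw
    have h1 := hT.dist_ne_of_adj w huv
    have h2 : ¬ T.dist w v < T.dist w u := hw
    show T.dist w u < T.dist w v
    omega
  have hdisj : ∀ w, w ∈ side T v u → w ∉ side T u v := by
    intro w hw hw'
    have h1 : T.dist w u < T.dist w v := hw
    have h2 : T.dist w v < T.dist w u := hw'
    omega
  let f : V → Pt := fun w => if w ∈ side T u v then f1 w else f2 w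
  have hf1 : ∀ w ∈ side T u v, f w = f1 w := fun w hw => if_pos hw
  have hf2 : ∀ w ∈ side T v u, f w = f2 w := fun w hw => if_neg (hdisj w hw)
  have fol1 : ρ.Follows r1 l2 := follows_outer hA hB
  have fol2 : ρ.Follows r2 l1 := follows_outer hB hA
  refine ⟨f, fun w => ?_⟩
  by_cases hw : w ∈ side T u v
  · refine F1 f hf1 r2 l2 ((hG _ _).2 (Or.inr (Or.inr fol2))) ((hG _ _).2 (Or.inr (Or.inl fol1)))
      ?_ ?_ ?_ w hw
    · rw [hf2 u (mem_side_self huv.symm), e4]
    · rw [hf2 r2 (hB.mem_right hT), e6]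
    · rw [hf2 l2 (hB.mem_left hT), e5]
  · refine F2 f hf2 r1 l1 ((hG _ _).2 (Or.inr (Or.inr fol1))) ((hG _ _).2 (Or.inr (Or.inl fol2)))
      ?_ ?_ ?_ w (hside w hw)
    · rw [hf1 v (mem_side_self huv), e1]
    · rw [hf1 r1 (hA.mem_right hT), e3]
    · rw [hf1 l1 (hA.mem_left hT), e2]

end Pool.Agent.Lib.MP_fbe6c8_co
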