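import Pool.Agent.Lib.MP_fbe6c8_co.Graph

set_option autoImplicit false

namespace Pool.Agent.Lib.MP_fbe6c8_co

variable {V : Type*}

/-- The 2-set with number `a`. -/
def pts (a : Pt) : Finset (Fin 6) :=
  (![{0, 1}, {0, 2}, {0, 3}, {0, 4}, {0, 5}, {1, 2}, {1, 3}, {1, 4}, {1, 5}, {2, 3}, {2, 4},
    {2, 5}, {3, 4}, {3, 5}, {4, 5}] : Fin 15 → Finset (Fin 6)) a

lemma pts_card : ∀ a, (pts a).card = 2 := by decide +kernel

lemma pts_adj : ∀ a b, adj a b = true → (pts a ∩ pts b).card = 0 := by decide +kernel

lemma pts_ne : ∀ a b, a ≠ b → (pts a ∩ pts b).card < 2 := by decide +kernel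

lemma good_nbr {G : SimpleGraph V} (hcub : IsCubic G) {f : V → Pt} {w : V} (h : Good G f w) :
    (∀ x, G.Adj w x → adj (f w) (f x) = true) ∧
      ∀ x y, G.Adj w x → G.Adj w y → x ≠ y → f x ≠ f y := by
  obtain ⟨n1, n2, n3, h1, h2, h3, a1, a2, a3, d1, d2, d3⟩ := h
  have hcard : ({n1, n2, n3} : Set V).ncard = 3 := by
    rw [Set.ncard_eq_three]
    exact ⟨_, _, _, fun h => d1 (by rw [h]), fun h => d2 (by rw [h]), fun h => d3 (by rw [h]), rfl⟩
  have hsub : ({n1, n2, n3} : Set V) ⊆ G.neighborSet w := by
    rintro x (rfl | rfl | rfl)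
    · exact h1
    · exact h2
    · exact h3
  have hfin : (G.neighborSet w).Finite := Set.finite_of_ncard_pos (by rw [hcub w]; omega)
  have heq := Set.eq_of_subset_of_ncard_le hsub (by rw [hcard, hcub w]) hfin
  have hall : ∀ x, G.Adj w x → x = n1 ∨ x = n2 ∨ x = n3 := by
    intro x hx
    have : x ∈ G.neighborSet w := hx
    rw [← heq] at this
    exact this
  constructor
  · intro x hx
    rcases hall x hx with rfl | rfl | rfl
    · exact a1
    · exact a2
    · exact a3
  · intro x y hx hy hxy
    rcases hall x hx with rfl | rfl | rfl <;> rcases hall y hy with rfl | rfl | rfl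
    · exact absurd rfl hxy
    · exact d1
    · exact d2
    · exact d1.symm
    · exact absurd rfl hxy
    · exact d3
    · exact d2.symm
    · exact d3.symm
    · exact absurd rfl hxy

lemma closed_univ {T : SimpleGraph V} (hT : T.Connected) {S : Set V}
    (hS : ∀ x ∈ S, ∀ y, T.Adj x y → y ∈ S) {x : V} (hx : x ∈ S) : S = Set.univ := by
  rw [Set.eq_univ_iff_forall]
  intro y
  obtain ⟨p⟩ := hT.preconnected x y
  induction p with
  | nil => exact hx
  | cons h q ih => exact ih (hS _ hx _ h)

lemma exists_inner_edge [Finite V] {T : SimpleGraph V} (hT : T.IsTree)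
    (hdeg : ∀ v, IsLeaf T v ∨ (T.neighborSet v).ncard = 3) (hcard : 6 ≤ Nat.card V) :
    ∃ u v, T.Adj u v ∧ (T.neighborSet u).ncard = 3 ∧ (T.neighborSet v).ncard = 3 := by
  by_contra hno
  push Not at hno
  have hcon := hT.connected
  obtain ⟨x⟩ := hcon.nonempty
  -- an inner vertex exists
  have hin : ∃ v, (T.neighborSet v).ncard = 3 := by
    rcases hdeg x with hx | hx
    swap
    · exact ⟨x, hx⟩
    obtain ⟨p, hp, hpu⟩ := hx
    rcases hdeg p with hp' | hp'
    swap
    · exact ⟨p, hp'⟩
    exfalso
    have hS : ({x, p} : Set V) = Set.univ := by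
      apply closed_univ hcon (x := x) _ (Or.inl rfl)
      rintro z (rfl | rfl) y hy
      · exact Or.inr (hpu y hy)
      · exact Or.inl (hp'.unique hy hp.symm)
    have h1 : Nat.card V = ({x, p} : Set V).ncard := by rw [hS, Set.ncard_univ]
    have h2 := Set.ncard_insert_le x {p}
    rw [Set.ncard_singleton] at h2
    omega
  obtain ⟨v, hv⟩ := hin
  have hS : insert v (T.neighborSet v) = Set.univ := by
    apply closed_univ hcon (x := v) _ (Set.mem_insert _ _)
    rintro z (rfl | hz) y hy
    · exact Or.inr hy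
    · rcases hdeg z with hz' | hz'
      · exact Or.inl (hz'.unique hy (SimpleGraph.Adj.symm hz))
      · exact absurd hz' (hno v z hz hv)
  have h1 : Nat.card V = (insert v (T.neighborSet v)).ncard := by rw [hS, Set.ncard_univ]
  have h2 := Set.ncard_insert_le v (T.neighborSet v)
  omega

/-- Every cubic Halin graph of order at least six is 2-tone 6-colourable. -/
theorem halin_tone [Finite V] (G : SimpleGraph V) (hH : IsHalin G) (hcub : IsCubic G)
    (hcard : 6 ≤ Nat.card V) : ToneColorable G 2 6 := by
  obtain ⟨-, T, ρ, hT, -, hG⟩ := hH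
  have hdeg : ∀ v, IsLeaf T v ∨ (T.neighborSet v).ncard = 3 := by
    intro v
    by_cases hv : IsLeaf T v
    · exact Or.inl hv
    · right
      have : T.neighborSet v = G.neighborSet v := by
        ext x
        constructor
        · exact fun h => (hG _ _).2 (Or.inl h)
        · intro h
          rcases (hG _ _).1 h with h | h | h
          · exact h
          · exact absurd h.1 hv
          · exact absurd h.2.1 hv
      rw [this]
      exact hcub v
  obtain ⟨u, v, huv, hu, hv⟩ := exists_inner_edge hT hdeg hcard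
  obtain ⟨f, hf⟩ := exists_good hT hG hdeg huv hu hv
  have hGcon : G.Connected := hT.connected.mono fun a b h => (hG _ _).2 (Or.inl h)
  refine ⟨fun w => pts (f w), fun w => pts_card _, fun x y hxy => ?_⟩
  have hpos := hGcon.pos_dist_of_ne hxy
  rcases Nat.lt_or_ge 2 (G.dist x y) with h3 | h3
  · calc (pts (f x) ∩ pts (f y)).card ≤ (pts (f x)).card :=
        Finset.card_le_card Finset.inter_subset_left
      _ = 2 := pts_card _
      _ < _ := h3
  · rcases (by omega : G.dist x y = 1 ∨ G.dist x y = 2) with h1 | h2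
    · rw [h1, pts_adj _ _ ((good_nbr hcub (hf x)).1 y (SimpleGraph.dist_eq_one_iff_adj.1 h1))]
      exact Nat.one_pos
    · rw [h2]
      obtain ⟨p, hp⟩ := hGcon.exists_walk_length_eq_dist x y
      rw [h2] at hp
      cases p with
      | nil => simp at hp
      | @cons _ z _ hxz q =>
        cases q with
        | nil => simp at hp
        | cons hzy q' =>
          cases q' with
          | nil =>
            exact pts_ne _ _ ((good_nbr hcub (hf z)).2 x y hxz.symm hzy hxy)
          | cons _ _ => simp at hp

end Pool.Agent.Lib.MP_fbe6c8_co
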