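import Pool.Agent.Lib.MP_fbe6c8_co.Cert

set_option autoImplicit false

namespace Pool.Agent.Lib.MP_fbe6c8_co

lemma isAut_of_mem {c : ℕ} (hc : c ∈ autTab) : IsAut (ap c) := by
  have h := check_aut
  rw [List.all_eq_true] at h
  have h1 := h c hc
  rw [List.all_eq_true] at h1
  have h2 : ∀ a b : Pt, (adj a b = true → adj (ap c a) (ap c b) = true) ∧
      (ap c a = ap c b → a = b) := by
    intro a b
    have h3 := h1 a (List.mem_finRange a)
    rw [List.all_eq_true] at h3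
    have h4 := h3 b (List.mem_finRange b)
    rw [Bool.and_eq_true, Bool.or_eq_true, Bool.or_eq_true] at h4
    constructor
    · intro hab
      rcases h4.1 with h5 | h5
      · rw [hab] at h5; exact absurd h5 (by decide)
      · exact h5
    · intro hab
      rcases h4.2 with h5 | h5
      · rw [hab] at h5; simp at h5
      · exact eq_of_beq h5
  exact ⟨fun a b => (h2 a b).1, fun a b => (h2 a b).2⟩

lemma aut_mem {s : ℕ} (hs : s < autTab.length) : aut s ∈ autTab := by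
  rw [aut, List.getD_eq_getElem _ _ hs]
  exact List.getElem_mem hs

lemma getD_mem {l : List ℕ} {n : ℕ} (hn : n < l.length) : l.getD n 0 ∈ l := by
  rw [List.getD_eq_getElem _ _ hn]
  exact List.getElem_mem hn

/-- the family attached to a shape -/
def typ : BT → ℕ
  | .leaf => 0
  | .node s t => prd (typ s) (typ t)

lemma okw_sound {s t : BT} {i j e w : ℕ}
    (hs : ∀ e ∈ rel i, Sem s 0 9 (e1 e) (e2 e) (e3 e) (e4 e))
    (ht : ∀ e ∈ rel j, Sem t 0 9 (e1 e) (e2 e) (e3 e) (e4 e))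
    (h : okw i j e w = true) : Sem (.node s t) 0 9 (e1 e) (e2 e) (e3 e) (e4 e) := by
  simp only [okw, Bool.and_eq_true, decide_eq_true_eq, beq_iff_eq, Bool.not_eq_true',
    beq_eq_false_iff_ne] at h
  obtain ⟨⟨⟨⟨⟨⟨⟨⟨⟨⟨⟨⟨⟨⟨⟨⟨hx, hy⟩, hsl⟩, htl⟩, h1⟩, h2⟩, h3⟩, h4⟩, h5⟩, h6⟩, h7⟩, h8⟩, h9⟩, h10⟩, h11⟩,
    h12⟩, h13⟩ := h
  have A := (hs _ (getD_mem hx)).map (isAut_of_mem (aut_mem hsl))
  have B := (ht _ (getD_mem hy)).map (isAut_of_mem (aut_mem htl))
  rw [h1, h3, h4] at A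
  rw [h2, h5, h6, ← h7, ← h8] at B
  exact ⟨_, _, _, _, by decide, h9, h10, Ne.symm h11, Ne.symm h12, h13, A, B⟩

theorem sound : ∀ t : BT, typ t < 9 ∧
    ∀ e ∈ rel (typ t), Sem t 0 9 (e1 e) (e2 e) (e3 e) (e4 e)
  | .leaf => by
      refine ⟨by decide, fun e he => ?_⟩
      have h := check_leaf
      rw [List.all_eq_true] at h
      have h1 := h e he
      simp only [Bool.and_eq_true, beq_iff_eq, Bool.not_eq_true', beq_eq_false_iff_ne] at h1
      obtain ⟨⟨⟨⟨⟨⟨h1, h2⟩, h3⟩, h4⟩, h5⟩, h6⟩, h7⟩ := h1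
      exact ⟨h1, h2, by decide, h3, h4, Ne.symm h5, Ne.symm h6, h7⟩
  | .node s t => by
      have hs := sound s
      have ht := sound t
      have h := check_prod
      rw [List.all_eq_true] at h
      have h1 := h (typ s) (List.mem_range.2 hs.1)
      rw [List.all_eq_true] at h1
      have h2 := h1 (typ t) (List.mem_range.2 ht.1)
      simp only [okp, Bool.and_eq_true, decide_eq_true_eq, List.all_eq_true] at h2
      refine ⟨h2.1.1, fun e he => ?_⟩
      obtain ⟨n, hn, rfl⟩ := List.getElem_of_mem he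
      have h3 := h2.2 n (List.mem_range.2 hn)
      have h4 := okw_sound hs.2 ht.2 h3
      have h5 : (rel (prd (typ s) (typ t))).getD n 0 = (rel (typ (.node s t)))[n] :=
        List.getD_eq_getElem _ _ hn
      rw [h5] at h4
      exact h4

lemma typ_pos (s t : BT) : 0 < typ (.node s t) := by
  have h := check_prod
  rw [List.all_eq_true] at h
  have h1 := h (typ s) (List.mem_range.2 (sound s).1)
  rw [List.all_eq_true] at h1
  have h2 := h1 (typ t) (List.mem_range.2 (sound t).1)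
  simp only [okp, Bool.and_eq_true, decide_eq_true_eq] at h2
  exact h2.1.2

/-- Two subtrees that are not single leaves can be joined. -/
theorem closing (s t s' t' : BT) : ∃ a1 a2 b1 b2 g1 g2 : Pt,
    Sem (.node s t) a1 a2 b1 b2 g1 g2 ∧ Sem (.node s' t') a2 a1 g2 g1 b2 b1 := by
  obtain ⟨hi9, hi⟩ := sound (.node s t)
  obtain ⟨hj9, hj⟩ := sound (.node s' t')
  have hi0 := typ_pos s t
  have hj0 := typ_pos s' t'
  obtain ⟨i, hi'⟩ := Nat.exists_eq_succ_of_ne_zero hi0.ne'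
  obtain ⟨j, hj'⟩ := Nat.exists_eq_succ_of_ne_zero hj0.ne'
  have h := check_close
  rw [List.all_eq_true] at h
  have h1 := h i (List.mem_range.2 (by omega))
  rw [List.all_eq_true] at h1
  have h2 := h1 j (List.mem_range.2 (by omega))
  simp only [okc, Bool.and_eq_true, decide_eq_true_eq, beq_iff_eq] at h2
  obtain ⟨⟨⟨⟨⟨⟨⟨⟨hx, hy⟩, htl⟩, h3⟩, h4⟩, h5⟩, h6⟩, h7⟩, h8⟩ := h2
  rw [hi'] at hi
  rw [hj'] at hj
  have A := hi _ (getD_mem hx)
  have B := (hj _ (getD_mem hy)).map (isAut_of_mem (aut_mem htl))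
  rw [h3, h4, h5, h6, h7, h8] at B
  exact ⟨_, _, _, _, _, _, A, B⟩

end Pool.Agent.Lib.MP_fbe6c8_co
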